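import Pool.Agent.Helper93.KS.St

/-!
# Project KS, module DL: the lower step of the deterministic recursion
-/

set_option autoImplicit false

noncomputable section

namespace Pool.Agent.Helper22.KS

open Finset Filter Topology Pool.Agent.Helper93.KS
open Pool.Agent.Helper15.AB (ee Kl StDB StMT)
open Pool.Agent.Helper9.TW (gm Qs fm StMER StC9)
open Pool.Agent.Helper18.TR (StLevel)
open Pool.Agent.Helper93.KP (gk vk tk rn gn TK qk StC8P StVLP StRTS StWEI)

private theorem gm_le' (j : ℕ) (hj : 1 ≤ j) : gm j ≤ 1 / j := by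
  have h0 : (0 : ℝ) < j := by exact_mod_cast hj
  unfold gm
  have := Real.log_le_sub_one_of_pos (show (0 : ℝ) < ((j : ℝ) + 1) / j by positivity)
  refine this.trans (le_of_eq ?_)
  field_simp
  ring

private theorem gm_nonneg' (j : ℕ) (hj : 1 ≤ j) : 0 ≤ gm j := by
  have h0 : (0 : ℝ) < j := by exact_mod_cast hj
  unfold gm
  apply Real.log_nonneg
  rw [le_div_iff₀ h0]
  linarith

/-- `1 - κ gm j` lies in `(0, 1]` -/
private theorem fac (κ j : ℕ) (hκ : κ ≤ 2) (hj : 3 ≤ j) : 0 < 1 - (κ : ℝ) * gm j ∧ 1 - (κ : ℝ) * gm j ≤ 1 := by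
  have h1 := gm_le' j (by omega)
  have h2 := gm_nonneg' j (by omega)
  have h3 : (κ : ℝ) ≤ 2 := by exact_mod_cast hκ
  have h4 : (0 : ℝ) ≤ κ := Nat.cast_nonneg κ
  have h5 : (3 : ℝ) ≤ j := by exact_mod_cast hj
  have h6 : 1 / (j : ℝ) ≤ 1 / 3 := one_div_le_one_div_of_le (by norm_num) h5
  constructor
  · nlinarith
  · nlinarith

private theorem one_le_prod (κ j₁ j : ℕ) (hκ : κ ≤ 2) (hj₁ : 3 ≤ j₁) :
    1 ≤ ∏ j' ∈ Ico j₁ j, 1 / (1 - (κ : ℝ) * gm j') := by
  have h : ∀ j' ∈ Ico j₁ j, (1 : ℝ) ≤ 1 / (1 - (κ : ℝ) * gm j') := by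
    intro j' hj'
    have := fac κ j' hκ (hj₁.trans (Finset.mem_Ico.1 hj').1)
    rw [le_div_iff₀ this.1]
    linarith [this.2]
  calc (1 : ℝ) = ∏ _j' ∈ Ico j₁ j, (1 : ℝ) := by simp
    _ ≤ _ := Finset.prod_le_prod (fun _ _ => zero_le_one) h

/-- the chain of applications of the rule `ls` -/
private theorem chain (κ j0 Nm N : ℕ) (U L : ℕ → ℕ → ℝ → Prop) (hκ : κ ≤ 2) (hB : Bx κ j0 Nm U L) (hNm : N ≤ Nm)
    (j₁ : ℕ) (hj₁ : j0 ≤ j₁) (h3 : 3 ≤ j₁) (c u : ℝ) (hc : 0 ≤ c) (hu : 0 ≤ u) (hst : L N j₁ c) (j : ℕ) (hj : j₁ ≤ j) :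
    2 * j ≤ N → (∀ j' : ℕ, j₁ ≤ j' → j' < j → U (N - (j' + 1)) j' u) →
    L N j ((∏ j' ∈ Ico j₁ j, 1 / (1 - (κ : ℝ) * gm j')) * c + ((∏ j' ∈ Ico j₁ j, 1 / (1 - (κ : ℝ) * gm j')) - 1) * u) := by
  induction j, hj using Nat.le_induction with
  | base =>
    intro _ _
    simpa using hst
  | succ j hj ih =>
    intro hN hU
    have h4 := ih (by omega) (fun j' h6 h7 => hU j' h6 (by omega))
    have h5 := hU j hj (by omega)
    have hR := one_le_prod κ j₁ j hκ h3
    have hf := fac κ j hκ (h3.trans hj)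
    rw [Finset.prod_Ico_succ_top hj]
    generalize (∏ j' ∈ Ico j₁ j, 1 / (1 - (κ : ℝ) * gm j')) = R at h4 hR ⊢
    have h6 := hB.ls N j _ _ (hj₁.trans hj) (by omega) hNm (by nlinarith) hu h4 h5
    have e : (R * c + (R - 1) * u + (κ : ℝ) * gm j * u) / (1 - (κ : ℝ) * gm j) =
        R * (1 / (1 - (κ : ℝ) * gm j)) * c + (R * (1 / (1 - (κ : ℝ) * gm j)) - 1) * u := by
      have hne := hf.1.ne'
      field_simp
      ring
    rw [← e]
    exact h6

theorem hDL (hR : StRB) : StDL := by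
  intro κ S K i c u hκ hK hi hc hu hL hU η hη
  obtain ⟨C, jR, hC, hjR, hRB⟩ := hR κ K i hκ hK (by omega)
  obtain ⟨js1, h1⟩ := hL (η / 16) (by positivity)
  obtain ⟨js2, h2⟩ := hU (η / 16) (by positivity)
  obtain ⟨js3, h3⟩ := exists_nat_ge (C + 2 * C * (c + u) / η)
  refine ⟨max (max js1 js2) (max js3 jR), ?_⟩
  intro j0 hj0 U L hB j N hj hN hs
  have hj01 : js1 ≤ j0 := le_trans (le_trans (le_max_left _ _) (le_max_left _ _)) hj0
  have hj02 : js2 ≤ j0 := le_trans (le_trans (le_max_right _ _) (le_max_left _ _)) hj0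
  have hj03 : js3 ≤ j0 := le_trans (le_trans (le_max_left _ _) (le_max_right _ _)) hj0
  have hj04 : jR ≤ j0 := le_trans (le_trans (le_max_right _ _) (le_max_right _ _)) hj0
  have hj0R : (0 : ℝ) < j0 := by
    have : 0 < j0 := by omega
    exact_mod_cast this
  have hbig : C + 2 * C * (c + u) / η ≤ (j0 : ℝ) := h3.trans (by exact_mod_cast hj03)
  have hKR : (1 : ℝ) ≤ K := by exact_mod_cast hK
  have hiR : (2 : ℝ) * K ≤ i := by exact_mod_cast hi
  have hi2 : (2 : ℝ) ≤ i := by linarith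
  have hsK : (i : ℝ) * j ≤ K * N := by
    rw [div_mul_eq_mul_div, div_le_iff₀ (by linarith)] at hs
    linarith
  have hsN : i * j ≤ K * N := by exact_mod_cast hsK
  -- the number `r`
  obtain ⟨r, hr⟩ : ∃ r : ℝ, r = (((i : ℝ) + 1) / i) ^ κ := ⟨_, rfl⟩
  have hq1 : 1 ≤ ((i : ℝ) + 1) / i := by
    rw [le_div_iff₀ (by linarith)]
    linarith
  have hq2 : ((i : ℝ) + 1) / i ≤ 3 / 2 := by
    rw [div_le_div_iff₀ (by linarith) (by norm_num)]
    linarith
  have hr1 : 1 ≤ r := by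
    rw [hr]
    exact one_le_pow₀ hq1
  have hr2 : r ≤ 9 / 4 := by
    rw [hr]
    calc (((i : ℝ) + 1) / i) ^ κ ≤ (((i : ℝ) + 1) / i) ^ 2 := pow_le_pow_right₀ hq1 hκ
      _ ≤ (3 / 2) ^ 2 := pow_le_pow_left₀ (by linarith) hq2 2
      _ = 9 / 4 := by norm_num
  rw [← hr]
  by_cases hcase : (i + 1) * j ≤ K * N
  · have h4 := h1 j0 hj01 U L hB j N hj hN (by
      have h6 : ((i : ℝ) + 1) * j ≤ K * N := by exact_mod_cast hcase
      rw [div_mul_eq_mul_div, div_le_iff₀ (by linarith)]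
      linarith)
    refine hB.lm _ _ _ _ h4 ?_
    nlinarith [mul_nonneg (by linarith : (0 : ℝ) ≤ r - 1) hc, mul_nonneg (by linarith : (0 : ℝ) ≤ r - 1) hu]
  · obtain ⟨j₁, hj1, hj1j, hst, hprod⟩ := hRB j0 j N hj04 hj hsN (not_le.1 hcase)
    rw [← hr] at hprod
    have hstart : L N j₁ (c + η / 16) := by
      rcases hst with h4 | h4
      · rw [h4]
        exact hB.lm _ _ _ _ (hB.l0 N hN) (by linarith)
      · refine h1 j0 hj01 U L hB j₁ N hj1 hN ?_
        have h6 : ((i : ℝ) + 1) * j₁ ≤ K * N := by exact_mod_cast h4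
        rw [div_mul_eq_mul_div, div_le_iff₀ (by linarith)]
        linarith
    have h2j : 2 * j ≤ N := by
      have h4 : K * (2 * j) ≤ K * N := by
        calc K * (2 * j) = 2 * K * j := by ring
          _ ≤ i * j := Nat.mul_le_mul_right _ hi
          _ ≤ K * N := hsN
      exact Nat.le_of_mul_le_mul_left h4 (by omega)
    have h4 := chain κ j0 (S * j0) N U L hκ hB hN j₁ hj1 (by omega) (c + η / 16) (u + η / 16) (by linarith)
      (by linarith) hstart j hj1j h2j (by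
        intro j' h6 h7
        have h8 : N - (j' + 1) ≤ S * j0 := (Nat.sub_le _ _).trans hN
        refine h2 j0 hj02 U L hB j' _ (by omega) h8 ?_
        have h10 : i * (j' + 1) ≤ K * N := (Nat.mul_le_mul_left _ (by omega)).trans hsN
        have h11 : ((N - (j' + 1) : ℕ) : ℝ) = (N : ℝ) - (j' + 1) := by
          rw [Nat.cast_sub (by omega)]
          push_cast
          ring
        have h12 : (i : ℝ) * (j' + 1) ≤ K * N := by exact_mod_cast h10
        rw [h11, div_mul_eq_mul_div, div_le_iff₀ (by linarith)]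
        nlinarith)
    refine hB.lm _ _ _ _ h4 ?_
    have hR1 := one_le_prod κ j₁ j hκ (by omega)
    generalize (∏ j' ∈ Ico j₁ j, 1 / (1 - (κ : ℝ) * gm j')) = R at hprod hR1 ⊢
    -- the error terms
    have hcu : 0 ≤ 2 * C * (c + u) / η := by
      apply div_nonneg _ hη.le
      apply mul_nonneg (by linarith) (by linarith)
    have hCj : C / j0 ≤ 1 := by
      rw [div_le_one hj0R]
      linarith
    have hCcu : C / j0 * (c + u) ≤ η / 2 := by
      have h5 : 2 * C * (c + u) / η ≤ j0 := by linarith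
      rw [div_le_iff₀ hη] at h5
      rw [div_mul_eq_mul_div, div_le_iff₀ hj0R]
      linarith
    have h5 : R * (c + η / 16) + (R - 1) * (u + η / 16) =
        R * (c + u + η / 8) - (u + η / 16) := by ring
    rw [h5]
    have h6 : R * (c + u + η / 8) ≤ (r + C / j0) * (c + u + η / 8) :=
      mul_le_mul_of_nonneg_right hprod (by linarith)
    have h7 : (r + C / j0) * (c + u + η / 8) = r * (c + u) + C / j0 * (c + u) + (r + C / j0) * (η / 8) := by ring
    have h8 : (r + C / j0) * (η / 8) ≤ (9 / 4 + 1) * (η / 8) :=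
      mul_le_mul_of_nonneg_right (by linarith) (by linarith)
    nlinarith

end Pool.Agent.Helper22.KS
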