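import Pool.Agent.Helper93.KS.St2

/-!
# Project KS, part 2, module EXD: dyadic summation
-/

set_option autoImplicit false

noncomputable section

namespace Pool.Agent.Helper22.KS

open Finset Filter Topology Pool.Agent.Helper93.KS
open Pool.Agent.Helper15.AB (SP StML)
open Pool.Agent.Helper9.TW (gm)
open Pool.Agent.Helper93.KP (gk vk tk rn gn TK qk StRTS)

private theorem log_le (N : ℕ) (hN : 1 ≤ N) : (Nat.log 2 N : ℝ) ≤ 2 * Real.log N := by
  have h4 : (2 : ℕ) ^ (Nat.log 2 N) ≤ N := Nat.pow_log_le_self 2 (by omega)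
  have h4' : (2 : ℝ) ^ (Nat.log 2 N) ≤ N := by exact_mod_cast h4
  have h := Real.log_le_log (by positivity) h4'
  rw [Real.log_pow] at h
  have h1 : (1 / 2 : ℝ) ≤ Real.log 2 := by linarith [Real.log_two_gt_d9]
  nlinarith [Nat.cast_nonneg (α := ℝ) (Nat.log 2 N)]

theorem hEXD (hE : StEXL) : StEXD := by
  classical
  intro u j0 η hj0 hju hη
  obtain ⟨A, hA⟩ := hE u j0 η hj0 hju hη
  obtain ⟨N₁, hN₁⟩ := eventually_atTop.1 hA
  refine ⟨A + 2, ?_⟩
  have hlog : ∀ᶠ N : ℕ in atTop, (2 * (N₁ : ℝ) + 4) ≤ Real.log N :=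
    (Real.tendsto_log_atTop.comp tendsto_natCast_atTop_atTop).eventually_ge_atTop _
  filter_upwards [hlog, eventually_ge_atTop 1] with N hL hN1
  set L := Real.log N with hLdef
  have hN₁0 : (0 : ℝ) ≤ N₁ := Nat.cast_nonneg _
  have hL4 : 4 ≤ L := by linarith
  have hL0 : 0 ≤ L := by linarith
  set R := (range (Nat.log 2 N + 1)).filter (fun k => N₁ ≤ 2 ^ k) with hR
  let F : ℕ → Finset ℕ := fun k =>
    (Ioc (2 ^ k) (2 * 2 ^ k)).filter (fun n => ¬ GD 1 19 78 kf1 u j0 η n)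
  have hF : ∀ k ∈ R, ((F k).card : ℝ) ≤ L ^ A := by
    intro k hk
    rw [hR, Finset.mem_filter, Finset.mem_range] at hk
    have h1 := hN₁ (2 ^ k) hk.2
    have h3 : (2 : ℕ) ^ k ≤ N :=
      (Nat.pow_le_pow_right (by norm_num) (by omega : k ≤ Nat.log 2 N)).trans
        (Nat.pow_log_le_self 2 (by omega))
    have h3' : (((2 : ℕ) ^ k : ℕ) : ℝ) ≤ N := by exact_mod_cast h3
    have h4 : (1 : ℝ) ≤ (((2 : ℕ) ^ k : ℕ) : ℝ) := by exact_mod_cast Nat.one_le_two_pow
    have h5 : Real.log (((2 : ℕ) ^ k : ℕ) : ℝ) ^ A ≤ L ^ A :=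
      pow_le_pow_left₀ (Real.log_nonneg h4) (Real.log_le_log (by linarith) h3') A
    refine le_trans ?_ h5
    convert h1 using 3
  have hsub : (Icc 1 N).filter (fun n => ¬ GD 1 19 78 kf1 u j0 η n) ⊆ Icc 1 (2 * N₁ + 1) ∪ R.biUnion F := by
    intro n hn
    rw [Finset.mem_filter, Finset.mem_Icc] at hn
    obtain ⟨⟨hn1, hnN⟩, hgd⟩ := hn
    rw [Finset.mem_union]
    by_cases hs : n ≤ 2 * N₁ + 1
    · exact Or.inl (Finset.mem_Icc.2 ⟨hn1, hs⟩)
    · right
      have hn0 : n - 1 ≠ 0 := by omega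
      have h1 : 2 ^ Nat.log 2 (n - 1) ≤ n - 1 := Nat.pow_log_le_self 2 hn0
      have h2 : n - 1 < 2 ^ (Nat.log 2 (n - 1) + 1) := Nat.lt_pow_succ_log_self (by norm_num) _
      rw [pow_succ] at h2
      rw [Finset.mem_biUnion]
      refine ⟨Nat.log 2 (n - 1), ?_, ?_⟩
      · rw [hR, Finset.mem_filter, Finset.mem_range]
        refine ⟨Nat.lt_succ_of_le (Nat.log_mono_right (by omega)), ?_⟩
        omega
      · change n ∈ (Ioc (2 ^ Nat.log 2 (n - 1)) (2 * 2 ^ Nat.log 2 (n - 1))).filter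
          (fun n => ¬ GD 1 19 78 kf1 u j0 η n)
        rw [Finset.mem_filter, Finset.mem_Ioc]
        refine ⟨⟨by omega, by omega⟩, hgd⟩
  have hcard : (((Icc 1 N).filter (fun n => ¬ GD 1 19 78 kf1 u j0 η n)).card : ℝ) ≤
      (2 * (N₁ : ℝ) + 1) + (2 * L + 1) * L ^ A := by
    have h1 := (Finset.card_le_card hsub).trans (Finset.card_union_le _ _)
    rw [Nat.card_Icc] at h1
    have h2 : (R.biUnion F).card ≤ ∑ s ∈ R, (F s).card := Finset.card_biUnion_le
    have h3 : ((∑ s ∈ R, (F s).card : ℕ) : ℝ) ≤ ∑ _s ∈ R, L ^ A := by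
      push_cast
      exact Finset.sum_le_sum hF
    have h4 : (R.card : ℝ) ≤ 2 * L + 1 := by
      have : R.card ≤ Nat.log 2 N + 1 := by
        rw [hR]
        exact (Finset.card_filter_le _ _).trans (by rw [Finset.card_range])
      have h' : (R.card : ℝ) ≤ (Nat.log 2 N : ℝ) + 1 := by exact_mod_cast this
      linarith [log_le N hN1]
    rw [Finset.sum_const, nsmul_eq_mul] at h3
    have h5 : (R.card : ℝ) * L ^ A ≤ (2 * L + 1) * L ^ A := mul_le_mul_of_nonneg_right h4 (by positivity)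
    have h6 : ((R.biUnion F).card : ℝ) ≤ (2 * L + 1) * L ^ A :=
      le_trans (by exact_mod_cast h2) (h3.trans h5)
    have h7 : (((Icc 1 N).filter (fun n => ¬ GD 1 19 78 kf1 u j0 η n)).card : ℝ) ≤
        ((2 * N₁ + 1 + 1 - 1 : ℕ) : ℝ) + ((R.biUnion F).card : ℝ) := by exact_mod_cast h1
    rw [Nat.add_sub_cancel] at h7
    push_cast at h7
    linarith
  refine le_trans ?_ (hcard.trans ?_)
  · refine le_of_eq ?_
    congr 2
  · have h8 : 1 ≤ L ^ A := one_le_pow₀ (by linarith)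
    have h9 : L ^ (A + 2) = L * L * L ^ A := by ring
    rw [h9]
    nlinarith [mul_le_mul_of_nonneg_right hL4 hL0]

end Pool.Agent.Helper22.KS
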